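import Pool.Statements.S17705
import Pool.Agent.Helper79.LW.Wq
import Pool.Agent.Helper72.OP.R
import Pool.Agent.Helper96.OP.F
import Pool.Agent.Helper36.OP.H3c
import Pool.Agent.Helper7.OP.H4

set_option autoImplicit false
open Pool Pool.MP_8cce2a_nt

namespace Pool.Agent.S17705

/-- The fraction of the 2^(n-1) subsets S of {1,…,n−1} for which x^n + 1 + sum over i in S of x^i is irreducible over the integers tends to 1 as n goes to infinity. -/
theorem result :
    Filter.Tendsto
      (fun n : ℕ =>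
        (({S : Finset ℕ | S ⊆ Finset.Ioo 0 n ∧
            Irreducible ((Polynomial.X : Polynomial ℤ) ^ n + 1 +
              ∑ i ∈ S, (Polynomial.X : Polynomial ℤ) ^ i)} : Set (Finset ℕ)).ncard : ℝ)
          / (2 : ℝ) ^ (n - 1))
      Filter.atTop (nhds 1) := by
  have W : ∀ ε : ℝ, 0 < ε → ∀ᶠ n : ℕ in Filter.atTop,
      ((Pool.Agent.Helper79.LC.famT n ((n : ℝ) ^ (0.27 : ℝ))).ncard : ℝ) ≤ Real.exp (ε * n) := by
    intro ε hε
    have h := Pool.Agent.Helper79.LC.W_of_sep Pool.Agent.Helper79.LC.Wq 0.23 (by norm_num) ε hε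
    have h2 : (1 / 2 - 0.23 : ℝ) = 0.27 := by norm_num
    rwa [h2] at h
  exact Pool.Agent.Helper79.LC.final_of_three Pool.Agent.Helper79.LC.cyc_part
    (Pool.Agent.Helper79.LC.noncyc_part W) (Pool.Agent.Helper79.LC.big_part W)

end Pool.Agent.S17705
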